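import Pool.Agent.Helper74.HG.GoalsC

/-! # HG, packet NUL: Nullstellensatz for finitely generated subrings of the complex numbers -/

set_option autoImplicit false

open MvPolynomial

namespace Pool.Agent.Helper83.HG.Nullst

open Pool.Agent.Helper74.HG

/-- A nonzero algebra of finite type over an algebraically closed field has a point. -/
theorem point {k B : Type} [Field k] [IsAlgClosed k] [CommRing B] [Nontrivial B] [Algebra k B]
    [Algebra.FiniteType k B] : Nonempty (B →ₐ[k] k) := by
  obtain ⟨M, hM⟩ := Ideal.exists_maximal B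
  letI : Field (B ⧸ M) := Ideal.Quotient.field M
  have hft : Algebra.FiniteType k (B ⧸ M) :=
    Algebra.FiniteType.of_surjective (Ideal.Quotient.mkₐ k M)
      (Ideal.Quotient.mkₐ_surjective k M)
  have hfin : Module.Finite k (B ⧸ M) := finite_of_finite_type_of_isJacobsonRing k (B ⧸ M)
  have hbij : Function.Bijective (algebraMap k (B ⧸ M)) :=
    IsAlgClosed.algebraMap_bijective_of_isIntegral
  let e : k ≃ₐ[k] (B ⧸ M) := AlgEquiv.ofBijective (Algebra.ofId k (B ⧸ M)) hbij
  exact ⟨(e.symm : (B ⧸ M) →ₐ[k] k).comp (Ideal.Quotient.mkₐ k M)⟩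

/-- NUL -/
theorem t : Pool.Agent.Helper74.HG.NUL := by
  intro s
  have hac : IsAlgClosed Qc := (algebraicClosure.isAlgClosure (F := ℚ) (E := ℂ)).isAlgClosed
  let B : Subalgebra Qc ℂ := Algebra.adjoin Qc (s : Set ℂ)
  have hfg : Algebra.FiniteType Qc B :=
    (Subalgebra.fg_iff_finiteType _).1 (Subalgebra.fg_adjoin_finset s)
  obtain ⟨π⟩ := point (k := Qc) (B := B)
  have hle : ∀ x : Rg s, (x : ℂ) ∈ B := by
    intro x
    have h : Rg s ≤ B.toSubring := by
      rw [Subring.closure_le]
      intro y hy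
      exact Algebra.subset_adjoin hy
    exact h x.2
  let i : Rg s →+* B := ((Rg s).subtype).codRestrict B hle
  refine ⟨(π : B →+* Qc).comp i, ?_⟩
  intro x y hxy
  have h1 : i x = algebraMap Qc B y := Subtype.ext hxy
  rw [RingHom.comp_apply, h1]
  exact π.commutes y

end Pool.Agent.Helper83.HG.Nullst
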